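import Pool.Agent.Q202.CPG.Syn

/-!
# Strongly CP-generic sets without strongly CP-generic proper elementary extensions

Every countable model `M` of Peano arithmetic (standard or not) has a strongly CP-generic set `X`
such that no proper elementary extension `(N, Y)` of `(M, X)` has `Y` strongly CP-generic in `N`.
-/

open FirstOrder FirstOrder.Language
open Q202.CPG

namespace Pool.Agent.Results.MP_486437_lc.NoExtension

universe u v

theorem peanoModel_nat : PeanoModel ℕ where
  induction := fun _ _ h0 h1 x => Nat.rec h0 (fun n hn => h1 n hn) x

/-- **Every countable model `M` of Peano arithmetic has a strongly CP-generic set `X` such that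
for every proper elementary extension `(N, Y)` of `(M, X)` the set `Y` is not strongly CP-generic
in `N`. In particular the answer to the question is negative.** -/
theorem result :
    (∀ (M : Type u) [CommSemiring M] [LinearOrder M] [PeanoModel M] [Countable M],
      ∃ X : Set M, StronglyCPGeneric X ∧
        ∀ (N : Type v) [CommSemiring N] [LinearOrder N] [PeanoModel N] (Y : Set N)
          (f : ElemExt X Y), ¬ Function.Surjective f → ¬ StronglyCPGeneric Y) ∧
    ¬ (∀ (M : Type) [CommSemiring M] [LinearOrder M] [PeanoModel M] (X : Set M),
      StronglyCPGeneric X →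
        ∃ (N : Type v) (_ : CommSemiring N) (_ : LinearOrder N) (_ : PeanoModel N) (Y : Set N)
          (f : ElemExt X Y), ¬ Function.Surjective f ∧ StronglyCPGeneric Y) := by
  refine ⟨?_, ?_⟩
  · intro M _ _ _ _
    obtain ⟨X, hX, h⟩ := main.{u, v} M
    exact ⟨X, hX, fun N _ _ _ Y f hf hY => hf (h N Y f hY)⟩
  · intro H
    have _ := peanoModel_nat
    obtain ⟨X, hX, h⟩ := main.{0, v} ℕ
    obtain ⟨N, _, _, _, Y, f, hf, hY⟩ := H ℕ X hX
    exact hf (h N Y f hY)

end Pool.Agent.Results.MP_486437_lc.NoExtension
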